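import Pool.Agent.Work.MP_ff8adc_an.Topo
import Pool.Agent.Work.MP_ff8adc_an.EdgeA
import Pool.Agent.Work.MP_ff8adc_an.EdgeB

set_option autoImplicit false

/-!
# A zero of the Mittag-Leffler function on the imaginary axis

`E_{a,1}(z) = ∑ z^k / Γ(a k + 1)` has a zero on the imaginary axis for some `a ∈ (3/5, 1)`.

Proof: the phase of `F(a,t) = E_{a,1}(i t)` is followed around the rectangle
`[2/3, 1] × [0, 21/4]`.  On `a = 1` the phase is `t`; on `a = 2/3` the imaginary part is
positive, so the phase stays below `π`; on `t = 21/4` the phase stays within `π` of its value on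
`a = 1` modulo the two quadrants, which forces it above `2π` at `a = 2/3`: a contradiction unless
`F` vanishes somewhere.  The estimates on the sides come from an exact Hankel-type
representation of `E_{a,1}(i t)` (files `Hankel`, `RepA`–`RepD`).
-/

open Pool.Agent.Work.MP_ff8adc_an

theorem Pool.Agent.Results.MP_ff8adc_an.ImaginaryZero.result :
    ∃ α : ℝ, 3 / 5 < α ∧ α < 1 ∧ ∃ t : ℝ,
      HasSum (fun k : ℕ => (Complex.I * (t : ℂ)) ^ k / Complex.Gamma ((α : ℂ) * (k : ℂ) + 1)) 0 := by
  have pi_lo := Real.pi_gt_d4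
  have pi_hi := Real.pi_lt_d4
  have hc : ContinuousOn (fun q : ℝ × ℝ => F q.1 q.2) (Set.Icc (2/3) 1 ×ˢ Set.Icc 0 (21/4)) :=
    F_continuousOn.mono (Set.prod_mono le_rfl (Set.Icc_subset_Icc le_rfl (by norm_num)))
  obtain ⟨a, ha, t, ht, hF⟩ := exists_zero F (2/3) (17/20) (21/4) (by norm_num) (by norm_num)
    (by norm_num) hc (fun a _ => F_zero a) (fun t _ => F_one t)
    (fun t ht => E1 ht.1 (ht.2.trans (by norm_num)))
    (fun a ha => E2 ha.1 ha.2)
    (by
      intro a ha
      rcases eq_or_lt_of_le ha.2 with h | h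
      · rw [h, F_one]
        have h1 : (Complex.exp (((21/4 : ℝ) : ℂ) * Complex.I)).re = Real.cos (21 / 4) :=
          Complex.exp_ofReal_mul_I_re _
        rw [h1]
        have h2 : Real.cos (21 / 4) = Real.cos (21 / 4 - 2 * Real.pi) := by
          rw [Real.cos_sub_two_pi]
        rw [h2]
        apply Real.cos_pos_of_mem_Ioo
        constructor <;> linarith
      · exact E3 ha.1 h)
    (by linarith) (by linarith)
  have hne1 : a ≠ 1 := by
    intro h
    rw [h, F_one] at hF
    exact Complex.exp_ne_zero _ hF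
  refine ⟨a, by linarith [ha.1], lt_of_le_of_ne ha.2 hne1, t, ?_⟩
  have hs := (summable_term a t ha.1 (by rw [abs_of_nonneg ht.1]; linarith [ht.2])).hasSum
  have hF' : ∑' k : ℕ, ((t : ℂ) * Complex.I) ^ k / (Real.Gamma (a * k + 1) : ℂ) = 0 := hF
  rw [hF'] at hs
  convert hs using 2 with k
  rw [mul_comm Complex.I, ← Complex.Gamma_ofReal]
  push_cast
  rfl
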